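import Mathlib
import Pool.Agent.H381R4.CM.Stubs

/-!
# The lower-dimensional Busemann–Petty problem (sections of dimension 2 and 3) (helper381)

Statements (as propositions `S_X`) for the sharp volume difference inequality for sections of
dimension `m ≤ 3` (MP_ad3614_gt), which contains the positive answer to the lower-dimensional
Busemann–Petty problem for sections of dimension `2` and `3`.
-/

set_option autoImplicit false
open MeasureTheory Matrix Filter Topology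
open scoped ENNReal BigOperators Pointwise

namespace Pool.Agent.H381BP
open Pool.Agent.H381CM

/-- Euclidean space of dimension `n` -/
abbrev E (n : ℕ) := EuclideanSpace ℝ (Fin n)

/-- the family `x, y, z, 0, 0, …` -/
def W3 {d : ℕ} (x y z : V d) (i : ℕ) : V d :=
  if i = 0 then x else if i = 1 then y else if i = 2 then z else 0

/-- the linear map `v ↦ v₀ x + v₁ y + v₂ z` (on `ℝ^m`, `m ≤ 3`) -/
noncomputable def lf (m : ℕ) {d : ℕ} (x y z : V d) (v : E m) : V d :=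
  ∑ i : Fin m, v i • W3 x y z i.val

/-- `h_L(x) = vol_m {v ∈ ℝ^m : |v| x ∈ L}` (which is `ω_m ρ_L(x)^m` for a star body `L`) -/
noncomputable def hh (m : ℕ) {d : ℕ} (L : Set (V d)) (x : V d) : ℝ≥0∞ :=
  volume {v : E m | ‖v‖ • x ∈ L}

/-- `ω_m`, the volume of the Euclidean unit ball of `ℝ^m` -/
noncomputable def om (m : ℕ) : ℝ≥0∞ := volume (Metric.closedBall (0 : E m) 1)

/-- the Euclidean unit ball as a subset of `Fin d → ℝ` -/
def BV (d : ℕ) : Set (V d) := {x | ∑ i, x i ^ 2 ≤ 1}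

/-- the constant `c_{n,m} = ω_n^{m/n} / ω_m` -/
noncomputable def cc (n m : ℕ) : ℝ≥0∞ := om n ^ ((m : ℝ) / n) / om m

/-! ## The statements -/

/-- marginal of the lifted density, with Lebesgue integrals -/
def S_LMA : Prop := ∀ (d : ℕ) (ι : Type) [Fintype ι] (u : ι → V d) (p : ι → Polynomial ℝ),
  Spans u → (∀ k, Adm (p k)) → ∀ x : V d,
  ∫⁻ q : V d × V d, ENNReal.ofReal (GG u p x q.1 q.2) = ENNReal.ofReal (gg u p x)

/-- rotation invariance of the lifted density -/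
def S_RTV : Prop := ∀ (d : ℕ) (ι : Type) [Fintype ι] (u : ι → V d) (p : ι → Polynomial ℝ)
  (L : Set (V d)), MeasurableSet L → ∀ a b c : ℝ,
  ∫⁻ q : V d × V d × V d, ENNReal.ofReal (GG u p q.1 q.2.1 q.2.2) *
      L.indicator 1 (a • q.1 + b • q.2.1 + c • q.2.2) =
    ∫⁻ q : V d × V d × V d, ENNReal.ofReal (GG u p q.1 q.2.1 q.2.2) *
      L.indicator 1 (Real.sqrt (a ^ 2 + b ^ 2 + c ^ 2) • q.1)

/-- the section identity -/
def S_IDN : Prop := ∀ (d m : ℕ), 1 ≤ m → m ≤ 3 → ∀ (ι : Type) [Fintype ι] (u : ι → V d)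
  (p : ι → Polynomial ℝ), Spans u → (∀ k, Adm (p k)) → ∀ L : Set (V d), MeasurableSet L →
  ∫⁻ q : V d × V d × V d, ENNReal.ofReal (GG u p q.1 q.2.1 q.2.2) *
      volume {v : E m | lf m q.1 q.2.1 q.2.2 v ∈ L} =
    ∫⁻ x : V d, ENNReal.ofReal (gg u p x) * hh m L x

/-- comparison for the smooth densities -/
def S_SMO : Prop := ∀ (d m : ℕ), 1 ≤ m → m ≤ 3 → ∀ (ι : Type) [Fintype ι] (u : ι → V d)
  (p : ι → Polynomial ℝ), Spans u → (∀ k, Adm (p k)) → ∀ K L B : Set (V d), MeasurableSet K →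
  MeasurableSet L → MeasurableSet B → ∀ r : ℝ≥0∞, r ≠ ⊤ →
  (∀ x y z : V d, volume {v : E m | lf m x y z v ∈ K} ≤
    volume {v : E m | lf m x y z v ∈ L} + r * volume {v : E m | lf m x y z v ∈ B}) →
  ∫⁻ x : V d, ENNReal.ofReal (gg u p x) * hh m K x ≤
    ∫⁻ x : V d, ENNReal.ofReal (gg u p x) * hh m L x +
      r * ∫⁻ x : V d, ENNReal.ofReal (gg u p x) * hh m B x

/-- `h_L` is measurable -/
def S_HME : Prop := ∀ (d m : ℕ) (L : Set (V d)), MeasurableSet L → Measurable (hh m L)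

/-- upper bound of `h_L` for bounded `L` -/
def S_HBD : Prop := ∀ (d m : ℕ), 1 ≤ m → ∀ (L : Set (V d)) (R : ℝ), 0 < R →
  (∀ x ∈ L, ∑ i, x i ^ 2 ≤ R ^ 2) → ∀ x : V d, x ≠ 0 →
  hh m L x ≤ om m * ENNReal.ofReal (R ^ m / (Real.sqrt (∑ i, x i ^ 2)) ^ m)

/-- integrability of the dominating function -/
def S_DOM : Prop := ∀ (d m : ℕ), m < d → ∀ c : ℝ, 0 < c →
  ∫⁻ x : V d, ENNReal.ofReal (Real.exp (-c * ∑ i, x i ^ 2) /
    (Real.sqrt (∑ i, x i ^ 2)) ^ m) < ⊤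

/-- Gaussian domination of the bump products -/
def S_GDO : Prop := ∀ (d : ℕ) (ι : Type) [Fintype ι] (u : ι → V d), Spans u →
  ∃ c C : ℝ, 0 < c ∧ 0 < C ∧ ∀ j : ℕ, 1 ≤ j → ∀ x : V d,
    0 ≤ gg u (fun _ => bump j) x ∧
    gg u (fun _ => bump j) x ≤ C * Real.exp (-c * ∑ i, x i ^ 2)

/-- pointwise a.e. convergence of the bump products to the indicator of the polytope -/
def S_PTW : Prop := ∀ (d : ℕ) (ι : Type) [Fintype ι] (u : ι → V d), Spans u →
  ∀ᵐ x : V d, Tendsto (fun j => gg u (fun _ => bump j) x) atTop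
    (𝓝 ((Pol u).indicator (fun _ => (1 : ℝ)) x))

/-- passage to the limit -/
def S_LIM : Prop := ∀ (d m : ℕ), 1 ≤ m → m < d → ∀ (ι : Type) [Fintype ι] (u : ι → V d),
  Spans u → ∀ L : Set (V d), MeasurableSet L → Bornology.IsBounded L →
  Tendsto (fun j : ℕ => ∫⁻ x : V d, ENNReal.ofReal (gg u (fun _ => bump j) x) * hh m L x) atTop
    (𝓝 (∫⁻ x in Pol u, hh m L x))

/-- a radial integral -/
def S_RAD : Prop := ∀ (n m : ℕ), 1 ≤ m → m < n → ∀ a b : ℝ≥0∞, a ≠ 0 → a ≠ ⊤ → b ≠ 0 → b ≠ ⊤ →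
  ∫⁻ v : E m, min a (b / ENNReal.ofReal (‖v‖ ^ n)) =
    om m * ENNReal.ofReal ((n : ℝ) / (n - m)) * a ^ (1 - (m : ℝ) / n) * b ^ ((m : ℝ) / n)

/-- the bathtub bound -/
def S_BTH : Prop := ∀ (d m : ℕ), 1 ≤ m → m < d → ∀ A L : Set (V d), MeasurableSet A →
  MeasurableSet L → volume A ≠ 0 → volume A ≠ ⊤ → volume L ≠ 0 → volume L ≠ ⊤ →
  ∫⁻ x in A, hh m L x ≤ om m * ENNReal.ofReal ((d : ℝ) / (d - m)) *
    volume A ^ (1 - (m : ℝ) / d) * volume L ^ ((m : ℝ) / d)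

/-- the equality case -/
def S_BTE : Prop := ∀ (d m : ℕ), 1 ≤ m → m < d → ∀ K : Set (V d), MeasurableSet K →
  Convex ℝ K → (0 : V d) ∈ interior K → volume K ≠ ⊤ →
  ∫⁻ x in K, hh m K x = om m * ENNReal.ofReal ((d : ℝ) / (d - m)) * volume K

/-- the volume of `BV d` and elementary facts on `ω_m` -/
def S_VBA : Prop := (∀ d : ℕ, volume (BV d) = om d ∧ MeasurableSet (BV d) ∧
    Bornology.IsBounded (BV d)) ∧ (∀ m : ℕ, om m ≠ 0 ∧ om m ≠ ⊤)

/-- the comparison theorem for polytopes -/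
def S_PLY : Prop := ∀ (d m : ℕ), 1 ≤ m → m ≤ 3 → m < d → ∀ (ι : Type) [Fintype ι]
  (u : ι → V d), Spans u → ∀ L : Set (V d), MeasurableSet L → Bornology.IsBounded L →
  volume L ≠ 0 → ∀ s : ℝ≥0∞, s ≠ ⊤ →
  (∀ x y z : V d, volume {v : E m | lf m x y z v ∈ Pol u} ≤
    volume {v : E m | lf m x y z v ∈ L} +
      s / om m * volume {v : E m | lf m x y z v ∈ BV d}) →
  volume (Pol u) ^ ((m : ℝ) / d) ≤ volume L ^ ((m : ℝ) / d) + s * cc d m

/-- from sections to preimages under linear maps -/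
def S_SEC : Prop := ∀ (d m : ℕ), 1 ≤ m → ∀ K L : Set (E d), MeasurableSet K → MeasurableSet L →
  (0 : E d) ∈ interior L → ∀ s : ℝ≥0∞, s ≠ ⊤ →
  (∀ F : Submodule ℝ (E d), Module.finrank ℝ F = m →
    volume {w : F | (w : E d) ∈ K} ≤ volume {w : F | (w : E d) ∈ L} + s) →
  ∀ Ξ : E m →ₗ[ℝ] E d, volume {v : E m | Ξ v ∈ K} ≤
    volume {v : E m | Ξ v ∈ L} + s / om m * volume {v : E m | ‖Ξ v‖ ≤ 1}

/-- the comparison theorem (lower-dimensional Busemann–Petty with a defect) -/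
def S_GEN : Prop := ∀ (d m : ℕ), 1 ≤ m → m ≤ 3 → m < d → ∀ K L : Set (E d), IsCompact K →
  Convex ℝ K → (interior K).Nonempty → (∀ x ∈ K, -x ∈ K) → MeasurableSet L →
  Bornology.IsBounded L → (0 : E d) ∈ interior L → ∀ s : ℝ≥0∞, s ≠ ⊤ →
  (∀ F : Submodule ℝ (E d), Module.finrank ℝ F = m →
    volume {w : F | (w : E d) ∈ K} ≤ volume {w : F | (w : E d) ∈ L} + s) →
  volume K ^ ((m : ℝ) / d) ≤ volume L ^ ((m : ℝ) / d) + s * cc d m

end Pool.Agent.H381BP
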