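import Mathlib
import Pool.Agent.H381R4.BP.Stubs

/-!
Final statement of the project BP (helper381), own definitions.
-/

set_option autoImplicit false
open MeasureTheory

namespace Pool.Agent.H381BP.Fin

/-- origin-symmetric convex bodies of `ℝ^n` -/
def SymBody {n : ℕ} (K : Set (EuclideanSpace ℝ (Fin n))) : Prop :=
  IsCompact K ∧ Convex ℝ K ∧ (interior K).Nonempty ∧ ∀ x ∈ K, -x ∈ K

/-- the volume `|A ∩ F|` of the section of `A` by the linear subspace `F`, in the dimension of
`F` -/
noncomputable def secVol {n : ℕ} (A : Set (EuclideanSpace ℝ (Fin n)))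
    (F : Submodule ℝ (EuclideanSpace ℝ (Fin n))) : ℝ :=
  (volume {w : F | (w : EuclideanSpace ℝ (Fin n)) ∈ A}).toReal

/-- `|A|`, the `n`-dimensional volume -/
noncomputable def vol {n : ℕ} (A : Set (EuclideanSpace ℝ (Fin n))) : ℝ := (volume A).toReal

/-- the volume `ω_m` of the Euclidean unit ball of `ℝ^m` -/
noncomputable def ballVol (m : ℕ) : ℝ :=
  vol (Metric.closedBall (0 : EuclideanSpace ℝ (Fin m)) 1)

/-- the volume difference inequality with constant `c` for sections of dimension `m`: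
`|K|^{m/n} - |L|^{m/n} ≤ c max_F (|K ∩ F| - |L ∩ F|)` (`F` over the `m`-dimensional linear
subspaces) for all origin-symmetric convex bodies `L ⊆ K` of `ℝ^n` -/
def VDI (n m : ℕ) (c : ℝ) : Prop :=
  ∀ K L : Set (EuclideanSpace ℝ (Fin n)), SymBody K → SymBody L → L ⊆ K →
    vol K ^ ((m : ℝ) / n) - vol L ^ ((m : ℝ) / n) ≤
      c * ⨆ F : {F : Submodule ℝ (EuclideanSpace ℝ (Fin n)) // Module.finrank ℝ F = m},
        (secVol K F.1 - secVol L F.1)

/-- the final statement: part 1, the inequality for arbitrary bounded measurable `L` with `0` in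
the interior -/
def S_FIN1 : Prop := ∀ (n m : ℕ), 1 ≤ m → m ≤ 3 → m < n →
  ∀ K L : Set (EuclideanSpace ℝ (Fin n)), SymBody K → MeasurableSet L →
    Bornology.IsBounded L → 0 ∈ interior L → ∀ s : ℝ, 0 ≤ s →
    (∀ F : Submodule ℝ (EuclideanSpace ℝ (Fin n)), Module.finrank ℝ F = m →
      secVol K F ≤ secVol L F + s) →
    vol K ^ ((m : ℝ) / n) ≤
      vol L ^ ((m : ℝ) / n) + ballVol n ^ ((m : ℝ) / n) / ballVol m * s

/-- the final statement: part 2, the exact value of the constant -/
def S_FIN2 : Prop := ∀ (n m : ℕ), 1 ≤ m → m ≤ 3 → m < n →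
  IsLeast {c : ℝ | VDI n m c} (ballVol n ^ ((m : ℝ) / n) / ballVol m)

end Pool.Agent.H381BP.Fin
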