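import Pool.Agent.H381R4.BP.Stubs

set_option autoImplicit false
open MeasureTheory
open Pool.Agent.H381CM

namespace Pool.Agent.H381BP

theorem T_HME : S_HME := by
  intro d m L hL
  have h1 : Measurable (fun q : V d × E m => ‖q.2‖ • q.1) :=
    Measurable.smul (measurable_snd.norm) measurable_fst
  have h2 : MeasurableSet {q : V d × E m | ‖q.2‖ • q.1 ∈ L} := h1 hL
  exact measurable_measure_prodMk_left h2

end Pool.Agent.H381BP
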